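import Mathlib

set_option autoImplicit false

/-! # SD-CO: the twisted sum over the primes up to `T ^ θ` (core, Mathlib only) -/

namespace Pool.Agent.Y688.SD

/-- the finite sum over the primes as a sum over the type of the primes -/
theorem fin_eq (F : ℕ → ℝ) (X : ℕ) :
    ∑' p : Nat.Primes, (if (p : ℕ) ≤ X then F p else 0) =
      ∑ p ∈ (Finset.Icc 1 X).filter Nat.Prime, F p := by
  have h1 : ∑' p : Nat.Primes, (if (p : ℕ) ≤ X then F p else 0) =
      ∑' n : ℕ, Set.indicator {p : ℕ | p.Prime} (fun n => if n ≤ X then F n else 0) n :=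
    tsum_subtype {p : ℕ | p.Prime} (fun n => if n ≤ X then F n else 0)
  rw [h1, tsum_eq_sum (s := (Finset.Icc 1 X).filter Nat.Prime)]
  · refine Finset.sum_congr rfl fun p hp => ?_
    rw [Finset.mem_filter, Finset.mem_Icc] at hp
    rw [Set.indicator_of_mem (show p ∈ {p : ℕ | p.Prime} from hp.2), if_pos hp.1.2]
  · intro b hb
    by_cases hbp : b.Prime
    · rw [Set.indicator_of_mem (show b ∈ {p : ℕ | p.Prime} from hbp)]
      rw [if_neg]
      intro hbX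
      exact hb (Finset.mem_filter.2 ⟨Finset.mem_Icc.2 ⟨hbp.one_le, hbX⟩, hbp⟩)
    · rw [Set.indicator_of_notMem (show b ∉ {p : ℕ | p.Prime} from hbp)]

theorem core (SQ : RiemannHypothesis → ∀ K : ℝ, 0 < K → ∃ T0 : ℝ, 10 ≤ T0 ∧ ∀ T : ℝ, T0 ≤ T →
    ∀ δ : ℝ, 0 < δ → δ ≤ 1 → ∀ c : ℝ, 2 * (K / Real.log T) ≤ c → c ≤ 4 * T →
      |∑' p : Nat.Primes, (p : ℝ) ^ (-(1 + δ)) * Real.sin (K / Real.log T / 2 * Real.log p) ^ 2 *
        Real.cos (c * Real.log p)| ≤ 1)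
    (TL : ∃ C : ℝ, 0 < C ∧ ∀ (X : ℕ) (δ : ℝ), 2 ≤ X → 0 < δ → 1 / 32 ≤ δ * Real.log X →
      ∑' p : Nat.Primes, (if (p : ℕ) ≤ X then 0 else (p : ℝ) ^ (-(1 + δ))) ≤ C) :
    RiemannHypothesis → ∃ C : ℝ, 0 < C ∧ ∀ K θ : ℝ, 0 < K → 0 < θ → θ ≤ 1 →
    ∃ T0 : ℝ, 10 ≤ T0 ∧ ∀ T : ℝ, T0 ≤ T → ∀ c : ℝ, 2 * (K / Real.log T) ≤ |c| → |c| ≤ 4 * T →
      |∑ p ∈ (Finset.Icc 1 ⌊T ^ θ⌋₊).filter Nat.Prime,
        Real.sin (K / Real.log T / 2 * Real.log p) ^ 2 / p * Real.cos (c * Real.log p)| ≤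
      1 / 16 * (∑ p ∈ (Finset.Icc 1 ⌊T ^ θ⌋₊).filter Nat.Prime,
        Real.sin (K / Real.log T / 2 * Real.log p) ^ 2 / p) + C := by
  intro RH
  obtain ⟨Ct, hCt, hTL⟩ := TL
  refine ⟨Ct + 2, by linarith, ?_⟩
  intro K θ hK hθ hθ1
  obtain ⟨T0, hT0, hSQ⟩ := SQ RH K hK
  refine ⟨max T0 (Real.exp (1 / (16 * θ) + 2 * Real.log 2 / θ)),
    hT0.trans (le_max_left _ _), ?_⟩
  intro T hT c hc1 hc2
  have hTT0 : T0 ≤ T := (le_max_left _ _).trans hT
  have hTpos : 0 < T := by linarith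
  have hlog2 : 0 < Real.log 2 := Real.log_pos (by norm_num)
  obtain ⟨L, hL⟩ : ∃ L : ℝ, L = Real.log T := ⟨_, rfl⟩
  have hLge : 1 / (16 * θ) + 2 * Real.log 2 / θ ≤ L := by
    rw [hL]
    exact (Real.le_log_iff_exp_le hTpos).2 ((le_max_right _ _).trans hT)
  have hL1 : 1 / (16 * θ) ≤ L := by
    have : 0 < 2 * Real.log 2 / θ := by positivity
    linarith
  have hL2 : 2 * Real.log 2 / θ ≤ L := by
    have : 0 < 1 / (16 * θ) := by positivity
    linarith
  have hLpos : 0 < L := lt_of_lt_of_le (by positivity) hL1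
  obtain ⟨δ, hδ⟩ : ∃ δ : ℝ, δ = 1 / (16 * θ * L) := ⟨_, rfl⟩
  have hδ0 : 0 < δ := by rw [hδ]; positivity
  have hδ1 : δ ≤ 1 := by
    rw [hδ, div_le_one (by positivity)]
    rw [div_le_iff₀ (by positivity)] at hL1
    linarith
  have hδL : δ * (θ * L) = 1 / 16 := by
    rw [hδ]
    field_simp
  -- the cut-off
  obtain ⟨X, hX⟩ : ∃ X : ℕ, X = ⌊T ^ θ⌋₊ := ⟨_, rfl⟩
  obtain ⟨u, hu⟩ : ∃ u : ℝ, u = Real.exp (θ * L / 2) := ⟨_, rfl⟩
  have hu2 : 2 ≤ u := by
    have h2 : Real.exp (Real.log 2) = 2 := Real.exp_log (by norm_num)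
    have h3 : Real.exp (Real.log 2) ≤ Real.exp (θ * L / 2) := by
      apply Real.exp_le_exp.2
      rw [div_le_iff₀ hθ] at hL2
      linarith
    rw [hu]
    linarith
  have hTθ : T ^ θ = u * u := by
    rw [Real.rpow_def_of_pos hTpos, ← hL, hu, ← Real.exp_add]
    congr 1
    ring
  have hXu : u ≤ X := by
    have h1 : T ^ θ - 1 < X := by
      rw [hX]
      exact Nat.sub_one_lt_floor _
    rw [hTθ] at h1
    nlinarith
  have hX2 : 2 ≤ X := by
    have h1 : (2 : ℝ) ≤ X := hu2.trans hXu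
    exact_mod_cast h1
  have hXT : (X : ℝ) ≤ T ^ θ := by
    rw [hX]
    exact Nat.floor_le (Real.rpow_nonneg hTpos.le θ)
  have hlogX : θ * L / 2 ≤ Real.log X := by
    rw [Real.le_log_iff_exp_le (by linarith), ← hu]
    exact hXu
  have hδX : 1 / 32 ≤ δ * Real.log X := by
    have h1 : δ * (θ * L / 2) ≤ δ * Real.log X := mul_le_mul_of_nonneg_left hlogX hδ0.le
    have h2 : δ * (θ * L / 2) = 1 / 32 := by
      have : δ * (θ * L / 2) = δ * (θ * L) / 2 := by ring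
      rw [this, hδL]
      norm_num
    linarith
  rw [← hX, ← hL]
  rw [← hL] at hc1
  have hSQ' := hSQ T hTT0 δ hδ0 hδ1 |c| (by rw [← hL]; exact hc1) hc2
  rw [← hL] at hSQ'
  have hcos : ∀ x : ℝ, Real.cos (|c| * x) = Real.cos (c * x) := by
    intro x
    rcases abs_choice c with h | h
    · rw [h]
    · rw [h, neg_mul, Real.cos_neg]
  simp only [hcos] at hSQ'
  -- the terms
  obtain ⟨a, ha⟩ : ∃ a : ℕ → ℝ, ∀ p, a p = Real.sin (K / L / 2 * Real.log p) ^ 2 :=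
    ⟨_, fun p => rfl⟩
  obtain ⟨co, hco⟩ : ∃ co : ℕ → ℝ, ∀ p : ℕ, co p = Real.cos (c * Real.log p) :=
    ⟨_, fun p => rfl⟩
  have ha0 : ∀ p, 0 ≤ a p := fun p => by rw [ha]; positivity
  have ha1 : ∀ p, a p ≤ 1 := fun p => by
    rw [ha]
    exact Real.sin_sq_le_one _
  have hco1 : ∀ p, |co p| ≤ 1 := fun p => by
    rw [hco]
    exact Real.abs_cos_le_one _
  simp only [← ha, ← hco] at hSQ' ⊢
  obtain ⟨F, hF⟩ : ∃ F : ℕ → ℝ, ∀ p : ℕ, F p = (p : ℝ) ^ (-(1 + δ)) * a p * co p :=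
    ⟨_, fun p => rfl⟩
  have hFle : ∀ p : ℕ, |F p| ≤ (p : ℝ) ^ (-(1 + δ)) := by
    intro p
    have h0 : 0 ≤ (p : ℝ) ^ (-(1 + δ)) := Real.rpow_nonneg (Nat.cast_nonneg p) _
    rw [hF, abs_mul, abs_mul, abs_of_nonneg h0, abs_of_nonneg (ha0 p)]
    have h1 : (p : ℝ) ^ (-(1 + δ)) * a p ≤ (p : ℝ) ^ (-(1 + δ)) * 1 :=
      mul_le_mul_of_nonneg_left (ha1 p) h0
    have h2 : (p : ℝ) ^ (-(1 + δ)) * a p * |co p| ≤ (p : ℝ) ^ (-(1 + δ)) * a p * 1 :=
      mul_le_mul_of_nonneg_left (hco1 p) (mul_nonneg h0 (ha0 p))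
    linarith
  have hsum0 : Summable (fun p : Nat.Primes => (p : ℝ) ^ (-(1 + δ))) :=
    Nat.Primes.summable_rpow.2 (by linarith)
  have hsumF : Summable (fun p : Nat.Primes => F p) := by
    refine Summable.of_norm_bounded hsum0 fun p => ?_
    rw [Real.norm_eq_abs]
    exact hFle p
  have hs1 : Summable (fun p : Nat.Primes => if (p : ℕ) ≤ X then F p else 0) := by
    refine Summable.of_norm_bounded hsum0 fun p => ?_
    rw [Real.norm_eq_abs]
    split_ifs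
    · exact hFle p
    · rw [abs_zero]
      exact Real.rpow_nonneg (Nat.cast_nonneg _) _
  have hs2 : Summable (fun p : Nat.Primes => if (p : ℕ) ≤ X then 0 else F p) := by
    refine Summable.of_norm_bounded hsum0 fun p => ?_
    rw [Real.norm_eq_abs]
    split_ifs
    · rw [abs_zero]
      exact Real.rpow_nonneg (Nat.cast_nonneg _) _
    · exact hFle p
  have hs3 : Summable (fun p : Nat.Primes => if (p : ℕ) ≤ X then 0 else (p : ℝ) ^ (-(1 + δ))) := by
    refine Summable.of_norm_bounded hsum0 fun p => ?_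
    have h0 : 0 ≤ (p : ℝ) ^ (-(1 + δ)) := Real.rpow_nonneg (Nat.cast_nonneg _) _
    rw [Real.norm_eq_abs]
    split_ifs
    · rw [abs_zero]
      exact h0
    · rw [abs_of_nonneg h0]
  have hsplit : ∑' p : Nat.Primes, F p = ∑ p ∈ (Finset.Icc 1 X).filter Nat.Prime, F p +
      ∑' p : Nat.Primes, (if (p : ℕ) ≤ X then 0 else F p) := by
    rw [← fin_eq, ← hs1.tsum_add hs2]
    refine tsum_congr fun p => ?_
    split_ifs <;> simp
  have htail : |∑' p : Nat.Primes, (if (p : ℕ) ≤ X then 0 else F p)| ≤ Ct := by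
    rw [← Real.norm_eq_abs]
    refine (norm_tsum_le_tsum_norm hs2.norm).trans ?_
    refine (hs2.norm.tsum_le_tsum (fun p => ?_) hs3).trans (hTL X δ hX2 hδ0 hδX)
    rw [Real.norm_eq_abs]
    split_ifs
    · rw [abs_zero]
    · exact hFle p
  have hfull : |∑' p : Nat.Primes, F p| ≤ 1 := by
    have h1 : ∑' p : Nat.Primes, F p =
        ∑' p : Nat.Primes, (p : ℝ) ^ (-(1 + δ)) * a p * co p := tsum_congr fun p => hF p
    rw [h1]
    exact hSQ'
  have hS2 : |∑ p ∈ (Finset.Icc 1 X).filter Nat.Prime, F p| ≤ 1 + Ct := by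
    have h1 : ∑ p ∈ (Finset.Icc 1 X).filter Nat.Prime, F p =
        ∑' p : Nat.Primes, F p - ∑' p : Nat.Primes, (if (p : ℕ) ≤ X then 0 else F p) := by
      rw [hsplit]
      ring
    rw [h1]
    exact (abs_sub _ _).trans (add_le_add hfull htail)
  have hdiff : |∑ p ∈ (Finset.Icc 1 X).filter Nat.Prime, a p / p * co p -
      ∑ p ∈ (Finset.Icc 1 X).filter Nat.Prime, F p| ≤
      1 / 16 * ∑ p ∈ (Finset.Icc 1 X).filter Nat.Prime, a p / p := by
    rw [← Finset.sum_sub_distrib, Finset.mul_sum]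
    refine (Finset.abs_sum_le_sum_abs _ _).trans (Finset.sum_le_sum fun p hp => ?_)
    rw [Finset.mem_filter, Finset.mem_Icc] at hp
    have hp1 : (1 : ℝ) ≤ p := by exact_mod_cast hp.1.1
    have hp0 : (0 : ℝ) < p := by linarith
    have hpX : (p : ℝ) ≤ X := by exact_mod_cast hp.1.2
    have hlp : Real.log p ≤ θ * L := by
      rw [hL, ← Real.log_rpow hTpos]
      exact Real.log_le_log hp0 (hpX.trans hXT)
    have hlp0 : 0 ≤ Real.log p := Real.log_nonneg hp1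
    have h1 : (p : ℝ) ^ (-(1 + δ)) = (p : ℝ)⁻¹ * Real.exp (-(δ * Real.log p)) := by
      rw [neg_add, Real.rpow_add hp0, Real.rpow_neg_one, Real.rpow_def_of_pos hp0]
      congr 2
      ring
    have h2 : 1 - δ * Real.log p ≤ Real.exp (-(δ * Real.log p)) := by
      have := Real.add_one_le_exp (-(δ * Real.log p))
      linarith
    have h3 : Real.exp (-(δ * Real.log p)) ≤ 1 :=
      Real.exp_le_one_iff.2 (neg_nonpos.2 (mul_nonneg hδ0.le hlp0))
    have h4 : δ * Real.log p ≤ 1 / 16 := by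
      rw [← hδL]
      exact mul_le_mul_of_nonneg_left hlp hδ0.le
    have h5 : a p / p * co p - F p =
        (a p / p) * (1 - Real.exp (-(δ * Real.log p))) * co p := by
      rw [hF, h1]
      field_simp
    have h6 : 0 ≤ a p / p := div_nonneg (ha0 p) hp0.le
    have h7 : 0 ≤ 1 - Real.exp (-(δ * Real.log p)) := by linarith
    rw [h5, abs_mul, abs_mul, abs_of_nonneg h6, abs_of_nonneg h7]
    have h8 : (a p / p) * (1 - Real.exp (-(δ * Real.log p))) ≤ (a p / p) * (1 / 16) :=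
      mul_le_mul_of_nonneg_left (by linarith) h6
    have h9 : (a p / p) * (1 - Real.exp (-(δ * Real.log p))) * |co p| ≤
        (a p / p) * (1 - Real.exp (-(δ * Real.log p))) * 1 :=
      mul_le_mul_of_nonneg_left (hco1 p) (mul_nonneg h6 h7)
    linarith
  have hfin : ∑ p ∈ (Finset.Icc 1 X).filter Nat.Prime, a p / p * co p =
      (∑ p ∈ (Finset.Icc 1 X).filter Nat.Prime, a p / p * co p -
        ∑ p ∈ (Finset.Icc 1 X).filter Nat.Prime, F p) +
      ∑ p ∈ (Finset.Icc 1 X).filter Nat.Prime, F p := by ring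
  rw [hfin]
  refine (abs_add_le _ _).trans ?_
  linarith

end Pool.Agent.Y688.SD
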