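import Pool.Agent.Y743.SD.Stm
import Pool.Agent.Y688.SD.Core

set_option autoImplicit false

/-! # SD-CO: the twisted sum over the primes up to `T ^ θ` -/

namespace Pool.Agent.Y688.SD.CO

theorem co (sq : Pool.Agent.Y743.SD.S_SQ) (tl : Pool.Agent.Y743.SD.S_TL) :
    Pool.Agent.Y743.SD.S_CO :=
  Pool.Agent.Y688.SD.core sq tl

end Pool.Agent.Y688.SD.CO
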